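import Mathlib

/-!
Trigraphs, contraction (reduction) sequences, bandwidth and reduced bandwidth.
-/

set_option autoImplicit false

namespace Q109.RB

/-- The three possible states of a pair of vertices of a trigraph. -/
inductive Col
  | absent
  | black
  | red

/-- The state of the pair `wx` after contracting `u, v` into `w`, given the states of `ux` and `vx`:
black if both are black, absent if both are absent, red otherwise. -/
def Col.merge : Col → Col → Col
  | Col.black, Col.black => Col.black
  | Col.absent, Col.absent => Col.absent
  | _, _ => Col.red

/-- A trigraph whose vertices form a finite subset of `V`, with the state of each pair (only pairs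
of distinct vertices matter). -/
structure Trigraph (V : Type) where
  verts : Finset V
  col : V → V → Col

open Classical in
/-- A graph as a trigraph: all edges are black. -/
noncomputable def ofGraph {V : Type} [Fintype V] (G : SimpleGraph V) : Trigraph V where
  verts := Finset.univ
  col x y := if G.Adj x y then Col.black else Col.absent

open Classical in
/-- Contraction of the two vertices `u, v` of `T`; the new vertex is again called `u`. -/
noncomputable def contract {V : Type} (T : Trigraph V) (u v : V) : Trigraph V where
  verts := T.verts.erase v
  col x y := if x = u then Col.merge (T.col u y) (T.col v y)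
    else if y = u then Col.merge (T.col x u) (T.col x v) else T.col x y

/-- The red graph of a trigraph. -/
def redGraph {V : Type} (T : Trigraph V) : SimpleGraph T.verts :=
  SimpleGraph.fromRel (fun x y => T.col x y = Col.red)

/-- The bandwidth of a finite graph: the least `k` such that some bijection `σ` to
`{0, …, |W| - 1}` has `|σ x - σ y| ≤ k` for all edges `xy`. -/
noncomputable def bandwidth {W : Type} (H : SimpleGraph W) : ℕ :=
  sInf {k : ℕ | ∃ σ : W ≃ Fin (Nat.card W), ∀ x y, H.Adj x y →
    |((σ x : ℕ) : ℤ) - ((σ y : ℕ) : ℤ)| ≤ k}

/-- `T 0, T 1, …, T (n-1)` is a reduction sequence of the `n`-vertex graph `G`: it starts with `G`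
and each trigraph arises from the previous one by contracting two distinct vertices. (So `T i` has
`n - i` vertices, and `T (n-1)` has one vertex; later terms are irrelevant.) -/
def IsReductionSequence {V : Type} [Fintype V] (G : SimpleGraph V) (T : ℕ → Trigraph V) : Prop :=
  T 0 = ofGraph G ∧ ∀ i, i + 1 < Fintype.card V →
    ∃ u ∈ (T i).verts, ∃ v ∈ (T i).verts, u ≠ v ∧ T (i + 1) = contract (T i) u v

/-- The reduced bandwidth: the minimum over all reduction sequences of the maximum bandwidth of the
red graphs of the sequence. -/
noncomputable def reducedBandwidth {V : Type} [Fintype V] (G : SimpleGraph V) : ℕ :=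
  sInf {k | ∃ T : ℕ → Trigraph V, IsReductionSequence G T ∧
    ∀ i, i < Fintype.card V → bandwidth (redGraph (T i)) ≤ k}

end Q109.RB
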