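import Pool.Agent.Q109.RB.Main

/-!
Density of shallow minors of `K_{t,t}`-free graphs of bounded reduced bandwidth.
-/

set_option autoImplicit false

namespace Q109.RB

open Classical Finset

/-- a graph in which every nonempty vertex set has a vertex with at most `d` neighbours inside the
set has at most `d |W|` edges -/
lemma edges_le_of_degenerate {W : Type} [Fintype W] (H : SimpleGraph W) (d : ℕ)
    (h : ∀ s : Finset W, s.Nonempty → ∃ v ∈ s, (s.filter (fun x => H.Adj v x)).card ≤ d) :
    H.edgeSet.ncard ≤ d * Fintype.card W := by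
  have key : ∀ n : ℕ, ∀ s : Finset W, s.card = n →
      ∑ x ∈ s, (s.filter (fun y => H.Adj x y)).card ≤ 2 * d * n := by
    intro n
    induction n with
    | zero =>
      intro s hs
      rw [Finset.card_eq_zero] at hs
      subst hs
      simp
    | succ n ih =>
      intro s hs
      obtain ⟨v, hv, hd⟩ := h s (Finset.card_pos.1 (by omega))
      have h1 := ih (s.erase v) (by rw [Finset.card_erase_of_mem hv]; omega)
      have h2 : ∀ x ∈ s.erase v, (s.filter (fun y => H.Adj x y)).card =
          ((s.erase v).filter (fun y => H.Adj x y)).card + if H.Adj x v then 1 else 0 := by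
        intro x hx
        have : s.filter (fun y => H.Adj x y) = if H.Adj x v then
            insert v ((s.erase v).filter (fun y => H.Adj x y)) else
            (s.erase v).filter (fun y => H.Adj x y) := by
          split_ifs with hxv
          · ext y
            simp only [Finset.mem_filter, Finset.mem_insert, Finset.mem_erase]
            constructor
            · rintro ⟨h1, h2⟩
              by_cases hy : y = v
              · exact Or.inl hy
              · exact Or.inr ⟨⟨hy, h1⟩, h2⟩
            · rintro (rfl | ⟨⟨-, h1⟩, h2⟩)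
              · exact ⟨hv, hxv⟩
              · exact ⟨h1, h2⟩
          · ext y
            simp only [Finset.mem_filter, Finset.mem_erase]
            constructor
            · rintro ⟨h1, h2⟩
              refine ⟨⟨?_, h1⟩, h2⟩
              rintro rfl
              exact hxv h2
            · rintro ⟨⟨-, h1⟩, h2⟩
              exact ⟨h1, h2⟩
        rw [this]
        split_ifs with hxv
        · rw [Finset.card_insert_of_notMem (by simp)]
        · rfl
      rw [← Finset.add_sum_erase s _ hv, Finset.sum_congr rfl h2, Finset.sum_add_distrib,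
        ← Finset.card_filter]
      have h3 : (Finset.filter (fun x => H.Adj x v) (s.erase v)).card ≤
          (s.filter (fun x => H.Adj v x)).card := by
        apply Finset.card_le_card
        intro x hx
        rw [Finset.mem_filter] at hx ⊢
        exact ⟨Finset.mem_of_mem_erase hx.1, hx.2.symm⟩
      have h4 : 2 * d * (n + 1) = 2 * d * n + 2 * d := by ring
      omega
  have h1 := key _ univ rfl
  have h2 := H.sum_degrees_eq_twice_card_edges
  have h3 : ∀ x : W, (univ.filter (fun y => H.Adj x y)).card = H.degree x := by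
    intro x
    rw [← SimpleGraph.card_neighborFinset_eq_degree]
    congr 1
    ext y
    simp
  simp_rw [h3] at h1
  rw [h2] at h1
  have h4 : H.edgeSet.ncard = H.edgeFinset.card := by
    rw [← SimpleGraph.coe_edgeFinset, Set.ncard_coe_finset]
  rw [h4]
  rw [Finset.card_univ] at h1
  have h5 : 2 * d * Fintype.card W = 2 * (d * Fintype.card W) := by ring
  omega

/-- the bound on the average degree -/
def bnd (t k r : ℕ) : ℕ := 2 * t - 3 + 2 * ((t - 1) * (2 * (k * (3 * r + 1)) + 1))

variable {V : Type} [Fintype V] {G : SimpleGraph V}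

theorem density {t k : ℕ} (ht : 2 ≤ t) (hK : NoK G t) (hbw : reducedBandwidth G ≤ k)
    {W : Type} [Fintype W] {H : SimpleGraph W} {r : ℕ} {B : W → Set V} (hB : Model G H r B) :
    H.edgeSet.ncard ≤ bnd t k r * Fintype.card W := by
  obtain ⟨π, f, hS⟩ := exists_pseq G hbw
  apply edges_le_of_degenerate
  intro s hs
  by_contra hc
  push Not at hc
  have hne : Nonempty s := hs.to_subtype
  have hB' : Model G (H.induce (s : Set W)) r (fun w : (s : Set W) => B w.1) := by
    refine ⟨fun i j hij => hB.disj _ _ (fun h => hij (Subtype.ext h)), fun i => hB.rad _,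
      fun i j hij => hB.edge _ _ hij⟩
  have h1 := min_degree_le ht hK hS hB' (D := bnd t k r + 1) (by
    intro w
    have h2 := hc w.1 (Finset.mem_coe.1 w.2)
    have h3 : (s.filter (fun x => H.Adj w.1 x)).card ≤
        (univ.filter (fun w' : (s : Set W) => (H.induce (s : Set W)).Adj w w')).card := by
      have : (univ.filter (fun w' : (s : Set W) => (H.induce (s : Set W)).Adj w w')).image
          Subtype.val = s.filter (fun x => H.Adj w.1 x) := by
        ext x
        simp only [Finset.mem_image, Finset.mem_filter, Finset.mem_univ, true_and]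
        constructor
        · rintro ⟨y, hy, rfl⟩
          exact ⟨Finset.mem_coe.1 y.2, hy⟩
        · rintro ⟨h1, h2⟩
          exact ⟨⟨x, Finset.mem_coe.2 h1⟩, h2, rfl⟩
      rw [← this]
      exact Finset.card_image_le
    exact (Nat.succ_le_of_lt h2).trans (h3.trans (le_of_eq (by congr!))))
  unfold bnd at h1
  omega

lemma bnd_le (t k r : ℕ) : bnd t k r ≤ (2 * t + 2 * (t * (6 * k + 1))) * (r + 1) := by
  unfold bnd
  have h0 : 2 * t ≤ 2 * t * (r + 1) := Nat.le_mul_of_pos_right _ (by omega)
  have h1 : 2 * t - 3 ≤ 2 * t * (r + 1) := by omega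
  have h2 : 2 * (k * (3 * r + 1)) + 1 ≤ (6 * k + 1) * (r + 1) := by
    nlinarith [Nat.zero_le (k * r), Nat.zero_le r, Nat.zero_le k]
  have h3 : (t - 1) * (2 * (k * (3 * r + 1)) + 1) ≤ t * ((6 * k + 1) * (r + 1)) :=
    Nat.mul_le_mul (by omega) h2
  nlinarith

omit [Fintype V] in
lemma noK_mono {t t' : ℕ} (h : t ≤ t') (hK : NoK G t) : NoK G t' := by
  rintro ⟨A, B, hA, hB, hab⟩
  obtain ⟨A', hA', hA2⟩ := Finset.exists_subset_card_eq (show t ≤ A.card by omega)
  obtain ⟨B', hB', hB2⟩ := Finset.exists_subset_card_eq (show t ≤ B.card by omega)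
  exact hK ⟨A', B', hA2, hB2, fun a ha b hb => hab a (hA' ha) b (hB' hb)⟩

omit [Fintype V] in
lemma noK_of_free {s t : ℕ}
    (h : ¬ (completeBipartiteGraph (Fin s) (Fin t)).IsContained G) : NoK G (max (max s t) 2) := by
  rintro ⟨A, B, hA, hB, hab⟩
  apply h
  obtain ⟨A', hA', hA2⟩ := Finset.exists_subset_card_eq (show s ≤ A.card by omega)
  obtain ⟨B', hB', hB2⟩ := Finset.exists_subset_card_eq (show t ≤ B.card by omega)
  let eA : Fin s ≃ A' := (Fintype.equivFinOfCardEq (by simp [hA2])).symm
  let eB : Fin t ≃ B' := (Fintype.equivFinOfCardEq (by simp [hB2])).symm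
  have hcross : ∀ a b, G.Adj (eA a : V) (eB b : V) := fun a b =>
    hab _ (hA' (eA a).2) _ (hB' (eB b).2)
  refine ⟨⟨⟨Sum.elim (fun a => (eA a : V)) (fun b => (eB b : V)), ?_⟩, ?_⟩⟩
  · rintro (a | a) (b | b) hadj
    · simp at hadj
    · exact hcross a b
    · exact (hcross b a).symm
    · simp at hadj
  · rintro (a | a) (b | b) hadj
    · congr 1
      exact eA.injective (Subtype.ext hadj)
    · exact absurd hadj (hcross a b).ne
    · exact absurd hadj (hcross b a).ne'
    · congr 1
      exact eB.injective (Subtype.ext hadj)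

end Q109.RB
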