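import Pool.Agent.Q109.RB.Part

/-!
Three-dimensional grids have unbounded reduced bandwidth: the main argument.
-/

set_option autoImplicit false

namespace Q109.RB

open Classical Finset

/-! ### Loomis–Whitney in dimension three -/

lemma loomis_whitney {A B C : Type} [DecidableEq A] [DecidableEq B] [DecidableEq C] [Fintype A]
    [Fintype B] [Fintype C] (W : Finset (A × B × C)) :
    W.card ^ 2 ≤ (W.image (fun x => (x.1, x.2.1))).card *
      (W.image (fun x => (x.2.1, x.2.2))).card * (W.image (fun x => (x.1, x.2.2))).card := by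
  let P := W.image (fun x => (x.1, x.2.1))
  let P1 := W.image (fun x => (x.2.1, x.2.2))
  let P2 := W.image (fun x => (x.1, x.2.2))
  let w : C → ℕ := fun z => (W.filter (fun x => x.2.2 = z)).card
  let a : C → ℕ := fun z => (P1.filter (fun x => x.2 = z)).card
  let b : C → ℕ := fun z => (P2.filter (fun x => x.2 = z)).card
  have hw : W.card = ∑ z : C, w z :=
    Finset.card_eq_sum_card_fiberwise (f := fun x : A × B × C => x.2.2) (t := univ)
      (fun x _ => Finset.mem_coe.2 (Finset.mem_univ _))
  have ha : P1.card = ∑ z : C, a z :=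
    Finset.card_eq_sum_card_fiberwise (f := fun x : B × C => x.2) (t := univ)
      (fun x _ => Finset.mem_coe.2 (Finset.mem_univ _))
  have hb : P2.card = ∑ z : C, b z :=
    Finset.card_eq_sum_card_fiberwise (f := fun x : A × C => x.2) (t := univ)
      (fun x _ => Finset.mem_coe.2 (Finset.mem_univ _))
  have h1 : ∀ z, w z ≤ P.card := by
    intro z
    apply Finset.card_le_card_of_injOn (fun x => (x.1, x.2.1))
    · intro x hx
      have := (Finset.mem_filter.1 (Finset.mem_coe.1 hx)).1
      exact Finset.mem_coe.2 (Finset.mem_image_of_mem _ this)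
    · intro x hx y hy hxy
      have h1 := (Finset.mem_filter.1 (Finset.mem_coe.1 hx)).2
      have h2 := (Finset.mem_filter.1 (Finset.mem_coe.1 hy)).2
      obtain ⟨x1, x2, x3⟩ := x
      obtain ⟨y1, y2, y3⟩ := y
      simp only [Prod.mk.injEq] at hxy h1 h2 ⊢
      exact ⟨hxy.1, hxy.2, h1.trans h2.symm⟩
  have h2 : ∀ z, w z ≤ a z * b z := by
    intro z
    rw [← Finset.card_product]
    apply Finset.card_le_card_of_injOn (fun x => ((x.2.1, x.2.2), (x.1, x.2.2)))
    · intro x hx
      have h3 := Finset.mem_filter.1 (Finset.mem_coe.1 hx)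
      refine Finset.mem_coe.2 (Finset.mem_product.2 ⟨Finset.mem_filter.2 ⟨?_, h3.2⟩,
        Finset.mem_filter.2 ⟨?_, h3.2⟩⟩)
      · exact Finset.mem_image_of_mem (fun x : A × B × C => (x.2.1, x.2.2)) h3.1
      · exact Finset.mem_image_of_mem (fun x : A × B × C => (x.1, x.2.2)) h3.1
    · intro x hx y hy hxy
      obtain ⟨x1, x2, x3⟩ := x
      obtain ⟨y1, y2, y3⟩ := y
      simp only [Prod.mk.injEq] at hxy ⊢
      exact ⟨hxy.2.1, hxy.1.1, hxy.1.2⟩
  have h3 := Finset.sum_sq_le_sum_mul_sum_of_sq_le_mul (univ : Finset C) (r := w)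
    (f := fun z => P.card * a z) (g := b) (fun _ _ => Nat.zero_le _) (fun _ _ => Nat.zero_le _)
    (fun z _ => by
      calc w z ^ 2 = w z * w z := sq _
        _ ≤ P.card * (a z * b z) := Nat.mul_le_mul (h1 z) (h2 z)
        _ = P.card * a z * b z := by ring)
  rw [← hw, ← Finset.mul_sum, ← ha, ← hb] at h3
  exact h3

variable {V : Type} [Fintype V] {G : SimpleGraph V}

/-- outer vertex boundary -/
noncomputable def bd (G : SimpleGraph V) (W : Finset V) : Finset V :=
  univ.filter (fun x => x ∉ W ∧ ∃ y ∈ W, G.Adj y x)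

/-- the window of parts around `c` -/
noncomputable def win (f : V → ℕ) (c K : ℕ) : Finset V :=
  univ.filter (fun x => f x ≤ c + K ∧ c ≤ f x + K)

lemma card_image_win (f : V → ℕ) (c K : ℕ) : ((win f c K).image f).card ≤ 2 * K + 1 := by
  have : (win f c K).image f ⊆ Finset.Icc (c - K) (c + K) := by
    intro x hx
    rw [Finset.mem_image] at hx
    obtain ⟨y, hy, rfl⟩ := hx
    have := (Finset.mem_filter.1 hy).2
    rw [Finset.mem_Icc]
    omega
  refine (Finset.card_le_card this).trans ?_
  rw [Nat.card_Icc]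
  omega

lemma card_win_le {k : ℕ} {π : V → V} {f : V → ℕ} (hP : Pos G k π f) {S : ℕ}
    (hS : ∀ a, (univ.filter (fun b => π b = π a)).card ≤ S) (c K : ℕ) :
    (win f c K).card ≤ S * (2 * K + 1) := by
  refine (Finset.card_le_mul_card_image (f := f) (win f c K) S ?_).trans
    (Nat.mul_le_mul_left _ (card_image_win f c K))
  intro q hq
  rw [Finset.mem_image] at hq
  obtain ⟨z, hz, rfl⟩ := hq
  refine (Finset.card_le_card ?_).trans (hS z)
  intro x hx
  rw [Finset.mem_filter] at hx ⊢
  exact ⟨Finset.mem_univ _, (hP.inj x z).1 hx.2⟩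

lemma win_growth {k Δ : ℕ} {π : V → V} {f : V → ℕ} (hP : Pos G k π f)
    (hΔ : ∀ y, (univ.filter (fun x => G.Adj y x)).card ≤ Δ) (c K : ℕ) :
    (win f c K).card + (bd G (win f c K)).card ≤
      (win f c (K + k)).card + (2 * K + 1) * Δ := by
  have hex : ∀ q : ℕ, ∃ y : Option V, q ∈ (win f c K).image f →
      ∃ y', y = some y' ∧ y' ∈ win f c K ∧ f y' = q := by
    intro q
    by_cases hq : q ∈ (win f c K).image f
    · obtain ⟨y, hy, hy2⟩ := Finset.mem_image.1 hq
      exact ⟨some y, fun _ => ⟨y, rfl, hy, hy2⟩⟩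
    · exact ⟨none, fun h => absurd h hq⟩
  choose rep hrep using hex
  let nb : ℕ → Finset V := fun q => match rep q with
    | none => ∅
    | some y => univ.filter (fun x => G.Adj y x)
  have hnb : ∀ q, (nb q).card ≤ Δ := by
    intro q
    simp only [nb]
    split
    · simp
    · exact hΔ _
  let Bad : Finset V := ((win f c K).image f).biUnion nb
  have hBad : Bad.card ≤ (2 * K + 1) * Δ :=
    (Finset.card_biUnion_le_card_mul _ _ _ (fun q _ => hnb q)).trans
      (Nat.mul_le_mul_right _ (card_image_win f c K))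
  have hsub : win f c K ∪ bd G (win f c K) ⊆ win f c (K + k) ∪ Bad := by
    intro x hx
    rw [Finset.mem_union] at hx ⊢
    rcases hx with hx | hx
    · left
      have := (Finset.mem_filter.1 hx).2
      rw [win, Finset.mem_filter]
      exact ⟨Finset.mem_univ _, by omega, by omega⟩
    · obtain ⟨-, hx1, y, hy, hyx⟩ := Finset.mem_filter.1 hx
      have hy' := (Finset.mem_filter.1 hy).2
      by_cases hpi : π y = π x
      · left
        have : f y = f x := (hP.inj y x).2 hpi
        rw [win, Finset.mem_filter]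
        exact ⟨Finset.mem_univ _, by omega, by omega⟩
      by_cases hred : ∃ a' b', π a' = π y ∧ π b' = π x ∧ ¬ G.Adj a' b'
      · left
        have h1 := hP.near y x hpi ⟨y, x, rfl, rfl, hyx⟩ hred
        obtain ⟨a', b', ha', hb', hab⟩ := hred
        have h2 := hP.near x y (Ne.symm hpi) ⟨x, y, rfl, rfl, hyx.symm⟩
          ⟨b', a', hb', ha', fun h => hab h.symm⟩
        rw [win, Finset.mem_filter]
        exact ⟨Finset.mem_univ _, by omega, by omega⟩
      · right
        push Not at hred
        rw [Finset.mem_biUnion]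
        have hq : f y ∈ (win f c K).image f := Finset.mem_image_of_mem _ hy
        refine ⟨f y, hq, ?_⟩
        obtain ⟨y', h1, h2, h3⟩ := hrep (f y) hq
        have h4 : G.Adj y' x := hred y' x ((hP.inj _ _).1 h3) rfl
        simp only [nb, h1]
        rw [Finset.mem_filter]
        exact ⟨Finset.mem_univ _, h4⟩
  have hdisj : Disjoint (win f c K) (bd G (win f c K)) := by
    rw [Finset.disjoint_left]
    intro x hx hx2
    exact (Finset.mem_filter.1 hx2).2.1 hx
  have h1 := Finset.card_le_card hsub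
  rw [Finset.card_union_of_disjoint hdisj] at h1
  have h2 := Finset.card_union_le (win f c (K + k)) Bad
  omega

/-- numerical contradiction -/
lemma numeric {k s : ℕ} (hk : 1 ≤ k) (hs : s = 96 * k + 12) (w b : ℕ → ℕ) (h0 : s ^ 3 ≤ w 0)
    (hup : ∀ j, w j ≤ 2 * s ^ 3 * (2 * (k * j) + 1))
    (hb : ∀ j, j ≤ 8 * (34 * k * s ^ 3) → w j ^ 2 ≤ b j ^ 3)
    (hg : ∀ j, w j + b j ≤ w (j + 1) + (2 * (k * j) + 1) * 6) : False := by
  have key : ∀ i, i ≤ 34 * k * s ^ 3 → (s + i) ^ 3 ≤ w (8 * i) := by
    intro i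
    induction i with
    | zero => intro _; simpa using h0
    | succ i ih =>
      intro hi
      have h1 := ih (by omega)
      -- inner steps
      have hin : ∀ m, m ≤ 8 → 2 * (s + i) ^ 3 + m * (s + i) ^ 2 ≤ 2 * w (8 * i + m) := by
        intro m
        induction m with
        | zero => intro _; simpa using h1
        | succ m ihm =>
          intro hm
          have h2 := ihm (by omega)
          have h3 : (s + i) ^ 3 ≤ w (8 * i + m) := by
            have : 0 ≤ m * (s + i) ^ 2 := Nat.zero_le _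
            omega
          have h4 := hb (8 * i + m) (by omega)
          have h5 : (s + i) ^ 2 ≤ b (8 * i + m) := by
            by_contra hc
            rw [not_le] at hc
            have h6 : b (8 * i + m) ^ 3 < ((s + i) ^ 2) ^ 3 := Nat.pow_lt_pow_left hc (by norm_num)
            have h7 : ((s + i) ^ 3) ^ 2 ≤ w (8 * i + m) ^ 2 := Nat.pow_le_pow_left h3 2
            have h8 : ((s + i) ^ 2) ^ 3 = ((s + i) ^ 3) ^ 2 := by ring
            omega
          have h6 := hg (8 * i + m)
          have h7 : (2 * (k * (8 * i + m)) + 1) * 6 * 2 ≤ (s + i) ^ 2 := by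
            have e1 : k * (8 * i + m) ≤ k * (8 * i + 7) := Nat.mul_le_mul_left _ (by omega)
            have e2 : (s + i) ^ 2 = s ^ 2 + 2 * s * i + i ^ 2 := by ring
            have e3 : 2 * s * i = 192 * (k * i) + 24 * i := by rw [hs]; ring
            have e4 : s ^ 2 = 9216 * k ^ 2 + 2304 * k + 144 := by rw [hs]; ring
            have e5 : k * (8 * i + 7) = 8 * (k * i) + 7 * k := by ring
            rw [e2, e3, e4]
            have : 0 ≤ i ^ 2 := Nat.zero_le _
            omega
          have h8 : 8 * i + m + 1 = 8 * i + (m + 1) := by ring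
          rw [h8] at h6
          have h9 : (m + 1) * (s + i) ^ 2 = m * (s + i) ^ 2 + (s + i) ^ 2 := by ring
          omega
      have h2 := hin 8 le_rfl
      have h3 : (s + (i + 1)) ^ 3 = (s + i) ^ 3 + 3 * (s + i) ^ 2 + 3 * (s + i) + 1 := by ring
      have h4 : 3 * (s + i) + 1 ≤ (s + i) ^ 2 := by
        have : 12 ≤ s := by omega
        nlinarith
      have h5 : 8 * (i + 1) = 8 * i + 8 := by ring
      rw [h5, h3]
      omega
  have h1 := key (34 * k * s ^ 3) le_rfl
  have h2 := hup (8 * (34 * k * s ^ 3))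
  obtain ⟨i, hi⟩ : ∃ i, i = 34 * k * s ^ 3 := ⟨_, rfl⟩
  rw [← hi] at h1 h2
  have hs12 : 12 ≤ s := by omega
  have hs3 : 1 ≤ s ^ 3 := Nat.one_le_pow _ _ (by omega)
  have h3 : 2 * s ^ 3 * (2 * (k * (8 * i)) + 1) ≤ i ^ 2 := by
    have e1 : 2 * s ^ 3 * (2 * (k * (8 * i)) + 1) = 32 * (k * s ^ 3 * i) + 2 * s ^ 3 := by ring
    have e2 : i ^ 2 = 34 * (k * s ^ 3 * i) := by
      calc i ^ 2 = i * i := sq i
        _ = (34 * k * s ^ 3) * i := by rw [← hi]
        _ = _ := by ring
    have hi1 : 1 ≤ i := by
      rw [hi]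
      have : 1 ≤ k * s ^ 3 := Nat.one_le_iff_ne_zero.2 (by positivity)
      nlinarith
    have e3 : s ^ 3 ≤ k * s ^ 3 * i := by
      calc s ^ 3 = 1 * s ^ 3 * 1 := by ring
        _ ≤ k * s ^ 3 * i := Nat.mul_le_mul (Nat.mul_le_mul_right _ hk) hi1
    omega
  have h4 : i ^ 2 < (s + i) ^ 3 := by
    have : i ^ 2 < (s + i) ^ 2 := Nat.pow_lt_pow_left (by omega) (by norm_num)
    calc i ^ 2 < (s + i) ^ 2 := this
      _ = (s + i) ^ 2 * 1 := by ring
      _ ≤ (s + i) ^ 2 * (s + i) := Nat.mul_le_mul_left _ (by omega)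
      _ = (s + i) ^ 3 := by ring
  omega

/-- A graph of maximum degree at most 6 with more than `M` vertices, in which every set of fewer
than `M` vertices satisfies the three-dimensional isoperimetric inequality, has large reduced
bandwidth. -/
theorem no_pseq {k : ℕ} (hk : 1 ≤ k) {π : ℕ → V → V} {f : ℕ → V → ℕ} (hS : PSeq G k π f)
    (hΔ : ∀ y, (univ.filter (fun x => G.Adj y x)).card ≤ 6) {M : ℕ}
    (hM : 2 * (96 * k + 12) ^ 3 * (2 * (k * (8 * (34 * k * (96 * k + 12) ^ 3))) + 1) < M)
    (hV : M ≤ Fintype.card V)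
    (hiso : ∀ W : Finset V, W.card < M → W.card ^ 2 ≤ (bd G W).card ^ 3) : False := by
  obtain ⟨s, hs⟩ : ∃ s, s = 96 * k + 12 := ⟨_, rfl⟩
  rw [← hs] at hM
  have hs1 : 1 < s ^ 3 := Nat.one_lt_pow (by norm_num) (by omega)
  have hn : s ^ 3 ≤ Fintype.card V := by
    have : s ^ 3 ≤ 2 * s ^ 3 * (2 * (k * (8 * (34 * k * s ^ 3))) + 1) := by
      calc s ^ 3 ≤ 2 * s ^ 3 := by omega
        _ = 2 * s ^ 3 * 1 := by ring
        _ ≤ _ := Nat.mul_le_mul_left _ (by omega)
    omega
  have hVpos : 0 < Fintype.card V := by omega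
  obtain ⟨v0⟩ : Nonempty V := Fintype.card_pos_iff.1 hVpos
  have hex : ∃ j, j < Fintype.card V ∧ ∃ a, s ^ 3 ≤ (univ.filter (fun b => π j b = π j a)).card := by
    refine ⟨Fintype.card V - 1, by omega, v0, ?_⟩
    rw [Finset.filter_true_of_mem (fun b _ => hS.last b v0)]
    exact hn
  have hmin := fun m hm => Nat.find_min hex (m := m) hm
  obtain ⟨hj, a, ha⟩ := Nat.find_spec hex
  obtain ⟨j, hjd⟩ : ∃ j, j = Nat.find hex := ⟨_, rfl⟩
  rw [← hjd] at hmin hj ha
  have hj0 : j ≠ 0 := by
    rintro rfl
    rw [hS.zero] at ha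
    have h2 : (univ.filter (fun b : V => (id b : V) = id a)).card = 1 := by
      rw [Finset.card_eq_one]
      exact ⟨a, by ext b; simp⟩
    omega
  obtain ⟨i, rfl⟩ := Nat.exists_eq_succ_of_ne_zero hj0
  obtain ⟨u, v, huv, hu, hv, hstep⟩ := hS.step i hj
  have hi : ∀ a, (univ.filter (fun b => π i b = π i a)).card < s ^ 3 := by
    intro a
    by_contra hc
    rw [not_lt] at hc
    exact hmin i (Nat.lt_succ_self i) ⟨by omega, a, hc⟩
  have hsize : ∀ a, (univ.filter (fun b => π (i + 1) b = π (i + 1) a)).card ≤ 2 * s ^ 3 := by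
    intro a
    have hp : ∀ x, (univ.filter (fun b => π i b = x)).card ≤ s ^ 3 := by
      intro x
      rcases (univ.filter (fun b => π i b = x)).eq_empty_or_nonempty with h | h
      · rw [h]; simp
      · obtain ⟨b, hb⟩ := h
        have hb' := (Finset.mem_filter.1 hb).2
        have := hi b
        rw [hb'] at this
        exact this.le
    by_cases h1 : π i a = u ∨ π i a = v
    · have e : π (i + 1) a = u := by
        rw [hstep]; exact (nextPart_eq_u huv).2 h1
      have hsub : univ.filter (fun b => π (i + 1) b = π (i + 1) a) ⊆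
          univ.filter (fun b => π i b = u) ∪ univ.filter (fun b => π i b = v) := by
        intro b hb
        have hb' := (Finset.mem_filter.1 hb).2
        rw [e, hstep, nextPart_eq_u huv] at hb'
        rw [Finset.mem_union, Finset.mem_filter, Finset.mem_filter]
        rcases hb' with h | h
        · exact Or.inl ⟨Finset.mem_univ _, h⟩
        · exact Or.inr ⟨Finset.mem_univ _, h⟩
      have h2 := (Finset.card_le_card hsub).trans (Finset.card_union_le _ _)
      have h3 := hp u
      have h4 := hp v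
      omega
    · push Not at h1
      have e : π (i + 1) a = π i a := by
        rw [hstep]; unfold nextPart; rw [if_neg h1.2]
      have hsub : univ.filter (fun b => π (i + 1) b = π (i + 1) a) ⊆
          univ.filter (fun b => π i b = π i a) := by
        intro b hb
        have hb' := (Finset.mem_filter.1 hb).2
        rw [e, hstep, nextPart_eq h1.1 h1.2] at hb'
        rw [Finset.mem_filter]
        exact ⟨Finset.mem_univ _, hb'⟩
      have h2 := Finset.card_le_card hsub
      have h3 := hi a
      omega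
  have hP := hS.pos (i + 1) hj
  let c := f (i + 1) a
  have hup : ∀ m, (win (f (i + 1)) c (k * m)).card ≤ 2 * s ^ 3 * (2 * (k * m) + 1) :=
    fun m => card_win_le hP hsize c (k * m)
  refine numeric hk hs (fun m => (win (f (i + 1)) c (k * m)).card)
    (fun m => (bd G (win (f (i + 1)) c (k * m))).card) ?_ hup ?_ ?_
  · refine ha.trans (Finset.card_le_card ?_)
    intro b hb
    have hb' := (Finset.mem_filter.1 hb).2
    have : f (i + 1) b = f (i + 1) a := (hP.inj b a).2 hb'
    rw [win, Finset.mem_filter]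
    refine ⟨Finset.mem_univ _, ?_, ?_⟩ <;> simp only [c] <;> omega
  · intro m hm
    apply hiso
    refine lt_of_le_of_lt (hup m) (lt_of_le_of_lt ?_ hM)
    apply Nat.mul_le_mul_left
    have : k * m ≤ k * (8 * (34 * k * s ^ 3)) := Nat.mul_le_mul_left _ hm
    omega
  · intro m
    have := win_growth hP hΔ c (k * m)
    have e : k * (m + 1) = k * m + k := by ring
    simp only [e]
    exact this

end Q109.RB
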