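import Pool.Agent.Q109.RB.Grid

/-!
Isoperimetry and degrees of the cubic grid.
-/

set_option autoImplicit false

namespace Q109.RB

open Classical Finset

/-- membership is constant along a path without boundary vertices -/
lemma const_along {n : ℕ} (P : Fin n → Prop)
    (h : ∀ t t' : Fin n, t.val + 1 = t'.val → (P t ↔ P t')) (t t' : Fin n) (ht : P t) : P t' := by
  have key : ∀ m (a b : Fin n), a.val + m = b.val → (P a ↔ P b) := by
    intro m
    induction m with
    | zero =>
      intro a b hab
      have : a = b := Fin.ext hab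
      rw [this]
    | succ m ih =>
      intro a b hab
      have hb := b.2
      have h1 := ih a ⟨a.val + m, by omega⟩ rfl
      have h2 := h ⟨a.val + m, by omega⟩ b (by change a.val + m + 1 = b.val; omega)
      exact h1.trans h2
  rcases le_total t.val t'.val with hle | hle
  · exact (key (t'.val - t.val) t t' (by omega)).1 ht
  · exact (key (t.val - t'.val) t' t (by omega)).2 ht

/-- a line which meets `W` and is not contained in it has a boundary vertex -/
lemma line_bd {V : Type} [Fintype V] {G : SimpleGraph V} {n : ℕ} (g : Fin n → V)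
    (hg : Function.Injective g)
    (hadj : ∀ t t' : Fin n, t.val + 1 = t'.val → G.Adj (g t) (g t')) (W : Finset V)
    (hW : W.card < n) (t : Fin n) (ht : g t ∈ W) : ∃ t', g t' ∈ bd G W := by
  by_contra hc
  push Not at hc
  have hconst := const_along (fun t => g t ∈ W) (by
    intro a b hab
    have h1 := hc a
    have h2 := hc b
    have h3 := hadj a b hab
    simp only [bd, Finset.mem_filter, Finset.mem_univ, true_and, not_and, not_exists] at h1 h2
    constructor
    · intro ha
      by_contra hb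
      exact h2 hb (g a) ha h3
    · intro hb
      by_contra ha
      exact h1 ha (g b) hb h3.symm)
  have hall : ∀ t', g t' ∈ W := fun t' => hconst t t' ht
  have : Fintype.card (Fin n) ≤ W.card := by
    rw [← Finset.card_univ]
    exact Finset.card_le_card_of_injOn g (fun x _ => Finset.mem_coe.2 (hall x)) hg.injOn
  rw [Fintype.card_fin] at this
  omega

/-- the cubic grid -/
def cube (n : ℕ) : SimpleGraph (Fin n × Fin n × Fin n) :=
  (SimpleGraph.pathGraph n) □ ((SimpleGraph.pathGraph n) □ (SimpleGraph.pathGraph n))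

lemma cube_adj {n : ℕ} (x y : Fin n × Fin n × Fin n) : (cube n).Adj x y ↔
    ((x.1.val + 1 = y.1.val ∨ y.1.val + 1 = x.1.val) ∧ x.2.1 = y.2.1 ∧ x.2.2 = y.2.2) ∨
    ((x.2.1.val + 1 = y.2.1.val ∨ y.2.1.val + 1 = x.2.1.val) ∧ x.1 = y.1 ∧ x.2.2 = y.2.2) ∨
    ((x.2.2.val + 1 = y.2.2.val ∨ y.2.2.val + 1 = x.2.2.val) ∧ x.1 = y.1 ∧ x.2.1 = y.2.1) := by
  simp only [cube, SimpleGraph.boxProd_adj, SimpleGraph.pathGraph_adj, Prod.ext_iff]
  tauto

lemma cube_iso {n : ℕ} (W : Finset (Fin n × Fin n × Fin n)) (hW : W.card < n) :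
    W.card ^ 2 ≤ (bd (cube n) W).card ^ 3 := by
  have h1 : (W.image (fun x => (x.1, x.2.1))).card ≤ (bd (cube n) W).card := by
    refine le_trans (Finset.card_le_card ?_)
      (Finset.card_image_le (s := bd (cube n) W) (f := fun x => (x.1, x.2.1)))
    intro p hp
    obtain ⟨x, hx, rfl⟩ := Finset.mem_image.1 hp
    obtain ⟨t', ht'⟩ := line_bd (G := cube n) (fun t => (x.1, x.2.1, t)) (fun a b h => by
      simpa using h) (fun a b hab => by rw [cube_adj]; simp [hab]) W hW x.2.2 hx
    exact Finset.mem_image.2 ⟨_, ht', rfl⟩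
  have h2 : (W.image (fun x => (x.2.1, x.2.2))).card ≤ (bd (cube n) W).card := by
    refine le_trans (Finset.card_le_card ?_)
      (Finset.card_image_le (s := bd (cube n) W) (f := fun x => (x.2.1, x.2.2)))
    intro p hp
    obtain ⟨x, hx, rfl⟩ := Finset.mem_image.1 hp
    obtain ⟨t', ht'⟩ := line_bd (G := cube n) (fun t => (t, x.2.1, x.2.2)) (fun a b h => by
      simpa using h) (fun a b hab => by rw [cube_adj]; simp [hab]) W hW x.1 hx
    exact Finset.mem_image.2 ⟨_, ht', rfl⟩
  have h3 : (W.image (fun x => (x.1, x.2.2))).card ≤ (bd (cube n) W).card := by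
    refine le_trans (Finset.card_le_card ?_)
      (Finset.card_image_le (s := bd (cube n) W) (f := fun x => (x.1, x.2.2)))
    intro p hp
    obtain ⟨x, hx, rfl⟩ := Finset.mem_image.1 hp
    obtain ⟨t', ht'⟩ := line_bd (G := cube n) (fun t => (x.1, t, x.2.2)) (fun a b h => by
      simpa using h) (fun a b hab => by rw [cube_adj]; simp [hab]) W hW x.2.1 hx
    exact Finset.mem_image.2 ⟨_, ht', rfl⟩
  calc W.card ^ 2 ≤ _ := loomis_whitney W
    _ ≤ (bd (cube n) W).card * (bd (cube n) W).card * (bd (cube n) W).card :=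
      Nat.mul_le_mul (Nat.mul_le_mul h1 h2) h3
    _ = _ := by ring

lemma two_nb {n : ℕ} (x : Fin n) :
    (univ.filter (fun y : Fin n => x.val + 1 = y.val ∨ y.val + 1 = x.val)).card ≤ 2 := by
  have h : (univ.filter (fun y : Fin n => x.val + 1 = y.val ∨ y.val + 1 = x.val)).card ≤
      ({x.val + 1, x.val - 1} : Finset ℕ).card := by
    apply Finset.card_le_card_of_injOn (fun y => y.val)
    · intro y hy
      have := (Finset.mem_filter.1 (Finset.mem_coe.1 hy)).2
      simp only [Finset.coe_insert, Finset.coe_singleton, Set.mem_insert_iff,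
        Set.mem_singleton_iff]
      omega
    · intro a _ b _ hab
      exact Fin.ext hab
  exact h.trans Finset.card_le_two

lemma cube_deg {n : ℕ} (y : Fin n × Fin n × Fin n) :
    (univ.filter (fun x => (cube n).Adj y x)).card ≤ 6 := by
  obtain ⟨a, b, c⟩ := y
  have hsub : univ.filter (fun x => (cube n).Adj (a, b, c) x) ⊆
      ((univ.filter (fun t : Fin n => a.val + 1 = t.val ∨ t.val + 1 = a.val)).image
        (fun t => (t, b, c))) ∪
      (((univ.filter (fun t : Fin n => b.val + 1 = t.val ∨ t.val + 1 = b.val)).image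
        (fun t => (a, t, c))) ∪
      ((univ.filter (fun t : Fin n => c.val + 1 = t.val ∨ t.val + 1 = c.val)).image
        (fun t => (a, b, t)))) := by
    intro x hx
    obtain ⟨x1, x2, x3⟩ := x
    have := (Finset.mem_filter.1 hx).2
    rw [cube_adj] at this
    simp only at this
    rw [Finset.mem_union, Finset.mem_union, Finset.mem_image, Finset.mem_image, Finset.mem_image]
    rcases this with ⟨h, rfl, rfl⟩ | ⟨h, rfl, rfl⟩ | ⟨h, rfl, rfl⟩
    · exact Or.inl ⟨x1, Finset.mem_filter.2 ⟨Finset.mem_univ _, h⟩, rfl⟩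
    · exact Or.inr (Or.inl ⟨x2, Finset.mem_filter.2 ⟨Finset.mem_univ _, h⟩, rfl⟩)
    · exact Or.inr (Or.inr ⟨x3, Finset.mem_filter.2 ⟨Finset.mem_univ _, h⟩, rfl⟩)
  refine (Finset.card_le_card hsub).trans ?_
  refine (Finset.card_union_le _ _).trans ?_
  have h1 := (Finset.card_image_le (s := univ.filter (fun t : Fin n => a.val + 1 = t.val ∨
    t.val + 1 = a.val)) (f := fun t => (t, b, c))).trans (two_nb a)
  have h2 := (Finset.card_image_le (s := univ.filter (fun t : Fin n => b.val + 1 = t.val ∨
    t.val + 1 = b.val)) (f := fun t => (a, t, c))).trans (two_nb b)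
  have h3 := (Finset.card_image_le (s := univ.filter (fun t : Fin n => c.val + 1 = t.val ∨
    t.val + 1 = c.val)) (f := fun t => (a, b, t))).trans (two_nb c)
  have h4 := Finset.card_union_le ((univ.filter (fun t : Fin n => b.val + 1 = t.val ∨
    t.val + 1 = b.val)).image (fun t => (a, t, c))) ((univ.filter (fun t : Fin n =>
      c.val + 1 = t.val ∨ t.val + 1 = c.val)).image (fun t => (a, b, t)))
  omega

theorem cube_unbounded (k : ℕ) : ∃ n : ℕ, 1 ≤ n ∧ k < reducedBandwidth (cube n) := by
  obtain ⟨M, hM⟩ : ∃ M, M = 2 * (96 * (k + 1) + 12) ^ 3 *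
      (2 * ((k + 1) * (8 * (34 * (k + 1) * (96 * (k + 1) + 12) ^ 3))) + 1) + 1 := ⟨_, rfl⟩
  have hM1 : 1 ≤ M := by omega
  refine ⟨M, hM1, ?_⟩
  by_contra hc
  rw [not_lt] at hc
  obtain ⟨π, f, hS⟩ := exists_pseq (cube M) (k := k + 1) (by omega)
  refine no_pseq (M := M) (by omega) hS cube_deg (by omega) ?_ (fun W hW => cube_iso W hW)
  rw [Fintype.card_prod, Fintype.card_prod, Fintype.card_fin]
  calc M = M * 1 := by ring
    _ ≤ M * (M * M) := Nat.mul_le_mul_left _ (Nat.one_le_iff_ne_zero.2 (by positivity))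

end Q109.RB
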