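import Pool.Agent.Q109.RB.Part

/-!
Shallow minors of `K_{t,t}`-free graphs of bounded reduced bandwidth have small minimum degree.
-/

set_option autoImplicit false

namespace Q109.RB

open Classical Finset

variable {V : Type} [Fintype V] {G : SimpleGraph V}

/-- size of the part of `a` -/
noncomputable def sz (π : V → V) (a : V) : ℕ := (univ.filter (fun b => π b = π a)).card

/-- no two sets of size `t` completely joined -/
def NoK (G : SimpleGraph V) (t : ℕ) : Prop :=
  ¬ ∃ A B : Finset V, A.card = t ∧ B.card = t ∧ ∀ a ∈ A, ∀ b ∈ B, G.Adj a b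

lemma sz_congr {π : V → V} {a b : V} (h : π a = π b) : sz π a = sz π b := by
  unfold sz; rw [h]

lemma exists_nonadj {t : ℕ} (hK : NoK G t) {π : V → V} {a b : V} (ha : t ≤ sz π a)
    (hb : t ≤ sz π b) : ∃ a' b', π a' = π a ∧ π b' = π b ∧ ¬ G.Adj a' b' := by
  by_contra hn
  push Not at hn
  obtain ⟨A, hA, hA2⟩ := Finset.exists_subset_card_eq ha
  obtain ⟨B, hB, hB2⟩ := Finset.exists_subset_card_eq hb
  refine hK ⟨A, B, hA2, hB2, fun x hx y hy => hn x y ?_ ?_⟩
  · simpa using hA hx
  · simpa using hB hy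

lemma near_big {t k : ℕ} (hK : NoK G t) {π : V → V} {f : V → ℕ} (hP : Pos G k π f) {a b : V}
    (hab : G.Adj a b) (ha : t ≤ sz π a) (hb : t ≤ sz π b) : f a ≤ f b + k := by
  by_cases h : π a = π b
  · rw [(hP.inj a b).2 h]; omega
  · exact hP.near a b h ⟨a, b, rfl, rfl, hab⟩ (exists_nonadj hK ha hb)

lemma walk_big {t k : ℕ} (hK : NoK G t) {π : V → V} {f : V → ℕ} (hP : Pos G k π f) :
    ∀ {a b : V} (p : G.Walk a b), (∀ w ∈ p.support, t ≤ sz π w) →
      f a ≤ f b + k * p.length ∧ f b ≤ f a + k * p.length := by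
  intro a b p
  induction p with
  | nil => intro _; simp
  | @cons a c b hac p ih =>
    intro h
    have h1 := ih (fun w hw => h w (by simp [hw]))
    have ha : t ≤ sz π a := h a (by simp)
    have hc : t ≤ sz π c := h c (by simp)
    have h2 := near_big hK hP hac ha hc
    have h3 := near_big hK hP hac.symm hc ha
    rw [SimpleGraph.Walk.length_cons, Nat.mul_add, Nat.mul_one]
    omega

/-- the first small vertex on a walk -/
lemma walk_small {t k : ℕ} (hK : NoK G t) {π : V → V} {f : V → ℕ} (hP : Pos G k π f)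
    (S : Set V) : ∀ {b y : V} (p : G.Walk b y), (∀ w ∈ p.support, w ∈ S) → sz π y < t →
      ∀ a, t ≤ sz π a → G.Adj a b → ∃ z ∈ S, sz π z < t ∧ ∃ y', t ≤ sz π y' ∧ G.Adj y' z ∧
        f y' ≤ f a + k * p.length ∧ f a ≤ f y' + k * p.length := by
  intro b y p
  induction p with
  | nil =>
    intro h hy a ha hab
    exact ⟨_, h _ (by simp), hy, a, ha, hab, by simp, by simp⟩
  | @cons b c y hbc p ih =>
    intro h hy a ha hab
    by_cases hb : sz π b < t
    · exact ⟨b, h b (by simp), hb, a, ha, hab, by simp, by simp⟩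
    · rw [not_lt] at hb
      obtain ⟨z, hz, hz2, y', hy', hadj, h1, h2⟩ :=
        ih (fun w hw => h w (by simp [hw])) hy b hb hbc
      refine ⟨z, hz, hz2, y', hy', hadj, ?_⟩
      have h3 := near_big hK hP hab ha hb
      have h4 := near_big hK hP hab.symm hb ha
      rw [SimpleGraph.Walk.length_cons, Nat.mul_add, Nat.mul_one]
      omega

lemma card_window (c K : ℕ) (S : Finset ℕ) (h : ∀ x ∈ S, x ≤ c + K ∧ c ≤ x + K) :
    S.card ≤ 2 * K + 1 := by
  have : S ⊆ Finset.Icc (c - K) (c + K) := by
    intro x hx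
    have := h x hx
    rw [Finset.mem_Icc]
    omega
  refine (Finset.card_le_card this).trans ?_
  rw [Nat.card_Icc]
  omega

/-- small vertices near `c` -/
noncomputable def Z1 (π : V → V) (f : V → ℕ) (t K c : ℕ) : Finset V :=
  univ.filter (fun z => sz π z < t ∧ f z ≤ c + K ∧ c ≤ f z + K)

/-- vertices complete to a big part near `c` -/
noncomputable def Z2 (G : SimpleGraph V) (π : V → V) (f : V → ℕ) (t K c : ℕ) : Finset V :=
  univ.filter (fun z => ∃ y, t ≤ sz π y ∧ (f y ≤ c + K ∧ c ≤ f y + K) ∧
    ∀ b, π b = π y → G.Adj b z)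

lemma card_Z1 {t k : ℕ} (ht : 1 ≤ t) {π : V → V} {f : V → ℕ} (hP : Pos G k π f) (K c : ℕ) :
    (Z1 π f t K c).card ≤ (t - 1) * (2 * K + 1) := by
  have h1 := Finset.card_le_mul_card_image (f := f) (Z1 π f t K c) (t - 1) (by
    intro q hq
    rw [Finset.mem_image] at hq
    obtain ⟨z, hz, rfl⟩ := hq
    have hz' := (Finset.mem_filter.1 hz).2
    have : (Z1 π f t K c).filter (fun x => f x = f z) ⊆ univ.filter (fun b => π b = π z) := by
      intro x hx
      rw [Finset.mem_filter] at hx ⊢
      exact ⟨Finset.mem_univ _, (hP.inj x z).1 hx.2⟩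
    have h2 := Finset.card_le_card this
    have h3 : (univ.filter (fun b => π b = π z)).card < t := hz'.1
    omega)
  refine h1.trans (Nat.mul_le_mul_left _ ?_)
  apply card_window c K
  intro x hx
  rw [Finset.mem_image] at hx
  obtain ⟨z, hz, rfl⟩ := hx
  exact (Finset.mem_filter.1 hz).2.2

lemma card_Z2 {t k : ℕ} (ht : 1 ≤ t) (hK : NoK G t) {π : V → V} {f : V → ℕ} (hP : Pos G k π f)
    (K c : ℕ) : (Z2 G π f t K c).card ≤ (t - 1) * (2 * K + 1) := by
  have hex : ∀ z : V, ∃ y : V, z ∈ Z2 G π f t K c → (t ≤ sz π y ∧ (f y ≤ c + K ∧ c ≤ f y + K) ∧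
      ∀ b, π b = π y → G.Adj b z) := by
    intro z
    by_cases hz : z ∈ Z2 G π f t K c
    · obtain ⟨y, hy⟩ := (Finset.mem_filter.1 hz).2
      exact ⟨y, fun _ => hy⟩
    · exact ⟨z, fun h => absurd h hz⟩
  choose y hy using hex
  have h1 := Finset.card_le_mul_card_image (f := fun z => f (y z)) (Z2 G π f t K c) (t - 1) (by
    intro q hq
    rw [Finset.mem_image] at hq
    obtain ⟨z, hz, rfl⟩ := hq
    by_contra hc
    rw [not_le] at hc
    obtain ⟨B, hB, hB2⟩ := Finset.exists_subset_card_eq
      (show t ≤ ((Z2 G π f t K c).filter (fun x => f (y x) = f (y z))).card by omega)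
    obtain ⟨A, hA, hA2⟩ := Finset.exists_subset_card_eq (hy z hz).1
    refine hK ⟨A, B, hA2, hB2, fun a ha b hb => ?_⟩
    have h2 := Finset.mem_filter.1 (hB hb)
    have h3 := Finset.mem_filter.1 (hA ha)
    have h4 := (hP.inj _ _).1 h2.2
    exact (hy b h2.1).2.2 a (h3.2.trans h4.symm))
  refine h1.trans (Nat.mul_le_mul_left _ ?_)
  apply card_window c K
  intro x hx
  rw [Finset.mem_image] at hx
  obtain ⟨z, hz, rfl⟩ := hx
  exact (hy z hz).2.1

/-- `B` is a model of `H` in `G` with branch sets of radius at most `r`. -/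
structure Model {W : Type} (G : SimpleGraph V) (H : SimpleGraph W) (r : ℕ) (B : W → Set V) :
    Prop where
  disj : ∀ i j, i ≠ j → Disjoint (B i) (B j)
  rad : ∀ i, ∃ x ∈ B i, ∀ y ∈ B i, ∃ p : G.Walk x y, p.length ≤ r ∧ ∀ w ∈ p.support, w ∈ B i
  edge : ∀ i j, H.Adj i j → ∃ a ∈ B i, ∃ b ∈ B j, G.Adj a b

omit [Fintype V] in
lemma card_le_of_mem {W : Type} {B : W → Set V} (hd : ∀ i j, i ≠ j → Disjoint (B i) (B j))
    (N : Finset W) (Z : Finset V) (h : ∀ w ∈ N, ∃ z ∈ B w, z ∈ Z) : N.card ≤ Z.card := by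
  have hex : ∀ w : W, ∃ z : Option V, w ∈ N → ∃ z', z = some z' ∧ z' ∈ B w ∧ z' ∈ Z := by
    intro w
    by_cases hw : w ∈ N
    · obtain ⟨z, hz, hz2⟩ := h w hw
      exact ⟨some z, fun _ => ⟨z, rfl, hz, hz2⟩⟩
    · exact ⟨none, fun h => absurd h hw⟩
  choose g hg using hex
  have h1 : N.card ≤ (Z.map Function.Embedding.some).card := by
    apply Finset.card_le_card_of_injOn g
    · intro w hw
      obtain ⟨z', h1, -, h3⟩ := hg w hw
      simp only [Finset.coe_map, Set.mem_image]
      exact ⟨z', h3, h1.symm⟩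
    · intro w hw w' hw' hww
      obtain ⟨z, h1, h2, -⟩ := hg w hw
      obtain ⟨z', h1', h2', -⟩ := hg w' hw'
      have e : z = z' := by
        have : some z = some z' := h1.symm.trans (hww.trans h1')
        exact Option.some.inj this
      by_contra hne
      exact Set.disjoint_left.1 (hd w w' hne) h2 (e ▸ h2')
  rwa [Finset.card_map] at h1

/-- The main theorem: minimum degree of shallow minors. -/
theorem min_degree_le {t k : ℕ} (ht : 2 ≤ t) (hK : NoK G t) {π : ℕ → V → V} {f : ℕ → V → ℕ}
    (hS : PSeq G k π f) {W : Type} [Fintype W] [Nonempty W] {H : SimpleGraph W} {r : ℕ}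
    {B : W → Set V} (hB : Model G H r B) {D : ℕ}
    (hD : ∀ w, D ≤ (univ.filter (fun w' => H.Adj w w')).card) :
    D ≤ 2 * t - 3 + 2 * ((t - 1) * (2 * (k * (3 * r + 1)) + 1)) := by
  have hne : ∀ w, ∃ a, a ∈ B w := fun w => by
    obtain ⟨x, hx, -⟩ := hB.rad w
    exact ⟨x, hx⟩
  by_cases hex : ∃ j, j < Fintype.card V ∧ ∃ w, ∀ a ∈ B w, t ≤ sz (π j) a
  swap
  · -- few vertices
    have hcard : Fintype.card V < t := by
      by_contra hc
      rw [not_lt] at hc
      apply hex
      refine ⟨Fintype.card V - 1, by omega, Classical.arbitrary W, fun a _ => ?_⟩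
      have : sz (π (Fintype.card V - 1)) a = Fintype.card V := by
        unfold sz
        rw [Finset.filter_true_of_mem (fun b _ => hS.last b a)]
        rfl
      omega
    have h1 : (univ : Finset W).card ≤ (univ : Finset V).card :=
      card_le_of_mem hB.disj _ _ (fun w _ => by
        obtain ⟨a, ha⟩ := hne w
        exact ⟨a, ha, Finset.mem_univ _⟩)
    let w : W := Classical.arbitrary W
    have h2 : (univ.filter (fun w' => H.Adj w w')).card < (univ : Finset W).card := by
      apply Finset.card_lt_card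
      rw [Finset.ssubset_univ_iff]
      intro h
      have : w ∈ univ.filter (fun w' => H.Adj w w') := by rw [h]; exact Finset.mem_univ _
      exact H.loopless.irrefl w (Finset.mem_filter.1 this).2
    have h3 := hD w
    rw [Finset.card_univ (α := V)] at h1
    omega
  · have hmin : ∀ m < Nat.find hex, ¬ (m < Fintype.card V ∧ ∃ w, ∀ a ∈ B w, t ≤ sz (π m) a) :=
      fun m hm => Nat.find_min hex hm
    obtain ⟨hj, w, hw⟩ := Nat.find_spec hex
    obtain ⟨j, hjd⟩ : ∃ j, j = Nat.find hex := ⟨_, rfl⟩
    rw [← hjd] at hmin hj hw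
    have hj0 : j ≠ 0 := by
      rintro rfl
      obtain ⟨a, ha⟩ := hne w
      have h1 := hw a ha
      rw [hS.zero] at h1
      have h2 : sz (id : V → V) a = 1 := by
        unfold sz
        rw [Finset.card_eq_one]
        exact ⟨a, by ext b; simp⟩
      omega
    obtain ⟨i, rfl⟩ := Nat.exists_eq_succ_of_ne_zero hj0
    obtain ⟨u, v, huv, hu, hv, hstep⟩ := hS.step i hj
    have hi := hmin i (Nat.lt_succ_self i)
    have hi' : ∀ w', ∃ a ∈ B w', sz (π i) a < t := by
      intro w'
      by_contra hc
      push Not at hc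
      exact hi ⟨by omega, w', hc⟩
    -- sizes only change in the parts of `u` and `v`
    have hsame : ∀ a, π i a ≠ u → π i a ≠ v → sz (π (i + 1)) a = sz (π i) a := by
      intro a h1 h2
      unfold sz
      congr 1
      ext b
      rw [hstep]
      simp only [Finset.mem_filter, Finset.mem_univ, true_and]
      have : nextPart (π i) u v a = π i a := by
        unfold nextPart; rw [if_neg h2]
      rw [this]
      exact nextPart_eq h1 h2
    let C : Finset W := univ.filter (fun w' => ∀ a ∈ B w', t ≤ sz (π (i + 1)) a)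
    let U : Finset V := univ.filter (fun a => (π i a = u ∨ π i a = v) ∧ sz (π i) a < t)
    have hUcard : U.card ≤ 2 * t - 2 := by
      have hpart : ∀ x : V, (univ.filter (fun a => π i a = x ∧ sz (π i) a < t)).card ≤ t - 1 := by
        intro x
        rcases (univ.filter (fun a => π i a = x ∧ sz (π i) a < t)).eq_empty_or_nonempty with h | h
        · rw [h]; simp
        · obtain ⟨a, ha⟩ := h
          have ha := (Finset.mem_filter.1 ha).2
          have hsub : univ.filter (fun a => π i a = x ∧ sz (π i) a < t) ⊆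
              univ.filter (fun b => π i b = π i a) := by
            intro b hb
            have := (Finset.mem_filter.1 hb).2
            rw [Finset.mem_filter]
            exact ⟨Finset.mem_univ _, this.1.trans ha.1.symm⟩
          have h1 := Finset.card_le_card hsub
          have h2 : (univ.filter (fun b => π i b = π i a)).card < t := ha.2
          omega
      have hsub : U ⊆ univ.filter (fun a => π i a = u ∧ sz (π i) a < t) ∪
          univ.filter (fun a => π i a = v ∧ sz (π i) a < t) := by
        intro a ha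
        have := (Finset.mem_filter.1 ha).2
        rw [Finset.mem_union, Finset.mem_filter, Finset.mem_filter]
        rcases this.1 with h | h
        · exact Or.inl ⟨Finset.mem_univ _, h, this.2⟩
        · exact Or.inr ⟨Finset.mem_univ _, h, this.2⟩
      have h1 := (Finset.card_le_card hsub).trans (Finset.card_union_le _ _)
      have h2 := hpart u
      have h3 := hpart v
      omega
    have hCcard : C.card ≤ 2 * t - 2 := by
      refine (card_le_of_mem hB.disj C U ?_).trans hUcard
      intro w' hw'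
      obtain ⟨a, ha, ha2⟩ := hi' w'
      have h1 := (Finset.mem_filter.1 hw').2 a ha
      refine ⟨a, ha, ?_⟩
      rw [Finset.mem_filter]
      refine ⟨Finset.mem_univ _, ?_, ha2⟩
      by_contra hc
      push Not at hc
      rw [hsame a hc.1 hc.2] at h1
      omega
    have hwC : w ∈ C := Finset.mem_filter.2 ⟨Finset.mem_univ _, hw⟩
    have hP := hS.pos (i + 1) hj
    obtain ⟨c, hc, hcr⟩ := hB.rad w
    let K := k * (3 * r + 1)
    let N' : Finset W := univ.filter (fun w' => H.Adj w w' ∧ w' ∉ C)
    have hN' : N'.card ≤ (Z1 (π (i + 1)) (f (i + 1)) t K (f (i + 1) c) ∪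
        Z2 G (π (i + 1)) (f (i + 1)) t K (f (i + 1) c)).card := by
      apply card_le_of_mem hB.disj
      intro w' hw'
      obtain ⟨hadj, hnC⟩ := (Finset.mem_filter.1 hw').2
      obtain ⟨a, ha, b, hb, hab⟩ := hB.edge w w' hadj
      obtain ⟨p, hp, hp2⟩ := hcr a ha
      obtain ⟨h1, h2⟩ := walk_big hK hP p (fun x hx => hw x (hp2 x hx))
      have h3 : ∃ y ∈ B w', sz (π (i + 1)) y < t := by
        by_contra hc
        push Not at hc
        exact hnC (Finset.mem_filter.2 ⟨Finset.mem_univ _, hc⟩)
      obtain ⟨y, hy, hys⟩ := h3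
      obtain ⟨c', hc', hcr'⟩ := hB.rad w'
      obtain ⟨q1, hq1, hq1'⟩ := hcr' b hb
      obtain ⟨q2, hq2, hq2'⟩ := hcr' y hy
      obtain ⟨z, hz, hzs, y', hy', hyz, h5, h6⟩ := walk_small hK hP (B w')
        (q1.reverse.append q2) (by
          intro x hx
          rw [SimpleGraph.Walk.mem_support_append_iff, SimpleGraph.Walk.support_reverse,
            List.mem_reverse] at hx
          rcases hx with hx | hx
          · exact hq1' x hx
          · exact hq2' x hx) hys a (hw a ha) hab
      rw [SimpleGraph.Walk.length_append, SimpleGraph.Walk.length_reverse] at h5 h6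
      have h7 : k * p.length ≤ k * r := Nat.mul_le_mul_left _ hp
      have h8 : k * (q1.length + q2.length) ≤ k * (2 * r) := Nat.mul_le_mul_left _ (by omega)
      have h9 : K = k * r + k * (2 * r) + k := by
        simp only [K]; ring
      refine ⟨z, hz, ?_⟩
      rw [Finset.mem_union]
      have hpart : π (i + 1) y' ≠ π (i + 1) z := by
        intro h
        have := sz_congr h
        omega
      by_cases hcomp : ∀ b, π (i + 1) b = π (i + 1) y' → G.Adj b z
      · right
        rw [Z2, Finset.mem_filter]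
        exact ⟨Finset.mem_univ _, y', hy', ⟨by omega, by omega⟩, hcomp⟩
      · left
        push Not at hcomp
        obtain ⟨b', hb', hb''⟩ := hcomp
        have h10 := hP.near y' z hpart ⟨y', z, rfl, rfl, hyz⟩ ⟨b', z, hb', rfl, hb''⟩
        have h11 := hP.near z y' hpart.symm ⟨z, y', rfl, rfl, hyz.symm⟩
          ⟨z, b', rfl, hb', fun h => hb'' h.symm⟩
        rw [Z1, Finset.mem_filter]
        exact ⟨Finset.mem_univ _, hzs, by omega, by omega⟩
    have hN : (univ.filter (fun w' => H.Adj w w')).card ≤ (C.erase w).card + N'.card := by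
      refine (Finset.card_le_card ?_).trans (Finset.card_union_le _ _)
      intro w' hw'
      have h1 := (Finset.mem_filter.1 hw').2
      rw [Finset.mem_union]
      by_cases h2 : w' ∈ C
      · exact Or.inl (Finset.mem_erase.2 ⟨h1.ne', h2⟩)
      · exact Or.inr (Finset.mem_filter.2 ⟨Finset.mem_univ _, h1, h2⟩)
    rw [Finset.card_erase_of_mem hwC] at hN
    have h1 := card_Z1 (show 1 ≤ t by omega) hP K (f (i + 1) c)
    have h2 := card_Z2 (show 1 ≤ t by omega) hK hP K (f (i + 1) c)
    have h3 := Finset.card_union_le (Z1 (π (i + 1)) (f (i + 1)) t K (f (i + 1) c))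
      (Z2 G (π (i + 1)) (f (i + 1)) t K (f (i + 1) c))
    have h4 := hD w
    have h5 : (t - 1) * (2 * K + 1) = (t - 1) * (2 * (k * (3 * r + 1)) + 1) := rfl
    omega

end Q109.RB
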