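import Pool.Agent.Q109.RB.Defs

/-!
The partition sequence of a reduction sequence.
-/

set_option autoImplicit false

namespace Q109.RB

open Classical

variable {V : Type}

/-- `π` sends each vertex to the name of its part; colours are determined by the pairs between
parts. -/
structure Good (G : SimpleGraph V) (T : Trigraph V) (π : V → V) : Prop where
  mem : ∀ a, π a ∈ T.verts
  rep : ∀ x ∈ T.verts, π x = x
  black : ∀ x ∈ T.verts, ∀ y ∈ T.verts, x ≠ y →
    (T.col x y = Col.black ↔ ∀ a b, π a = x → π b = y → G.Adj a b)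
  absent : ∀ x ∈ T.verts, ∀ y ∈ T.verts, x ≠ y →
    (T.col x y = Col.absent ↔ ∀ a b, π a = x → π b = y → ¬ G.Adj a b)

lemma merge_black {a b : Col} : Col.merge a b = Col.black ↔ a = Col.black ∧ b = Col.black := by
  cases a <;> cases b <;> simp [Col.merge]

lemma merge_absent {a b : Col} : Col.merge a b = Col.absent ↔ a = Col.absent ∧ b = Col.absent := by
  cases a <;> cases b <;> simp [Col.merge]

lemma good_zero [Fintype V] (G : SimpleGraph V) : Good G (ofGraph G) id where
  mem a := Finset.mem_univ _
  rep x _ := rfl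
  black x _ y _ hxy := by
    simp only [ofGraph, id]
    constructor
    · intro h a b ha hb
      subst ha hb
      by_contra hn
      rw [if_neg hn] at h
      exact Col.noConfusion h
    · intro h
      rw [if_pos (h x y rfl rfl)]
  absent x _ y _ hxy := by
    simp only [ofGraph, id]
    constructor
    · intro h a b ha hb
      subst ha hb
      intro hn
      rw [if_pos hn] at h
      exact Col.noConfusion h
    · intro h
      rw [if_neg (h x y rfl rfl)]

/-- the next partition -/
noncomputable def nextPart (π : V → V) (u v : V) : V → V := fun a => if π a = v then u else π a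

lemma nextPart_eq_u {π : V → V} {u v a : V} (_ : u ≠ v) :
    nextPart π u v a = u ↔ π a = u ∨ π a = v := by
  unfold nextPart
  split_ifs with h1
  · simp [h1]
  · simp [h1]

lemma nextPart_eq {π : V → V} {u v a x : V} (hx : x ≠ u) (hv : x ≠ v) :
    nextPart π u v a = x ↔ π a = x := by
  unfold nextPart
  split_ifs with h1
  · constructor
    · intro h; exact absurd h.symm hx
    · intro h; exact absurd (h.symm.trans h1) hv
  · rfl

lemma good_step {G : SimpleGraph V} {T : Trigraph V} {π : V → V} (h : Good G T π) {u v : V}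
    (hu : u ∈ T.verts) (hv : v ∈ T.verts) (huv : u ≠ v) :
    Good G (contract T u v) (nextPart π u v) where
  mem a := by
    simp only [contract, nextPart]
    split_ifs with h1
    · exact Finset.mem_erase.2 ⟨huv, hu⟩
    · exact Finset.mem_erase.2 ⟨h1, h.mem a⟩
  rep x hx := by
    simp only [contract, Finset.mem_erase] at hx
    have := h.rep x hx.2
    simp only [nextPart, this]
    rw [if_neg hx.1]
  black x hx y hy hxy := by
    simp only [contract, Finset.mem_erase] at hx hy
    simp only [contract]
    by_cases h1 : x = u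
    · subst h1
      rw [if_pos rfl, merge_black, h.black x hu y hy.2 hxy, h.black v hv y hy.2 hy.1.symm]
      have e2 : ∀ b, nextPart π x v b = y ↔ π b = y := fun b => nextPart_eq hxy.symm hy.1
      simp only [nextPart_eq_u huv, e2]
      constructor
      · rintro ⟨h1, h2⟩ a b (ha | ha) hb
        · exact h1 a b ha hb
        · exact h2 a b ha hb
      · intro h3
        exact ⟨fun a b ha hb => h3 a b (Or.inl ha) hb, fun a b ha hb => h3 a b (Or.inr ha) hb⟩
    · rw [if_neg h1]
      by_cases h2 : y = u
      · subst h2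
        rw [if_pos rfl, merge_black, h.black x hx.2 y hu hxy, h.black x hx.2 v hv hx.1]
        have e2 : ∀ b, nextPart π y v b = x ↔ π b = x := fun b => nextPart_eq hxy hx.1
        simp only [nextPart_eq_u huv, e2]
        constructor
        · rintro ⟨h1, h2⟩ a b ha (hb | hb)
          · exact h1 a b ha hb
          · exact h2 a b ha hb
        · intro h3
          exact ⟨fun a b ha hb => h3 a b ha (Or.inl hb), fun a b ha hb => h3 a b ha (Or.inr hb)⟩
      · rw [if_neg h2, h.black x hx.2 y hy.2 hxy]
        have e1 : ∀ b, nextPart π u v b = x ↔ π b = x := fun b => nextPart_eq h1 hx.1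
        have e2 : ∀ b, nextPart π u v b = y ↔ π b = y := fun b => nextPart_eq h2 hy.1
        simp only [e1, e2]
  absent x hx y hy hxy := by
    simp only [contract, Finset.mem_erase] at hx hy
    simp only [contract]
    by_cases h1 : x = u
    · subst h1
      rw [if_pos rfl, merge_absent, h.absent x hu y hy.2 hxy, h.absent v hv y hy.2 hy.1.symm]
      have e2 : ∀ b, nextPart π x v b = y ↔ π b = y := fun b => nextPart_eq hxy.symm hy.1
      simp only [nextPart_eq_u huv, e2]
      constructor
      · rintro ⟨h1, h2⟩ a b (ha | ha) hb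
        · exact h1 a b ha hb
        · exact h2 a b ha hb
      · intro h3
        exact ⟨fun a b ha hb => h3 a b (Or.inl ha) hb, fun a b ha hb => h3 a b (Or.inr ha) hb⟩
    · rw [if_neg h1]
      by_cases h2 : y = u
      · subst h2
        rw [if_pos rfl, merge_absent, h.absent x hx.2 y hu hxy, h.absent x hx.2 v hv hx.1]
        have e2 : ∀ b, nextPart π y v b = x ↔ π b = x := fun b => nextPart_eq hxy hx.1
        simp only [nextPart_eq_u huv, e2]
        constructor
        · rintro ⟨h1, h2⟩ a b ha (hb | hb)
          · exact h1 a b ha hb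
          · exact h2 a b ha hb
        · intro h3
          exact ⟨fun a b ha hb => h3 a b ha (Or.inl hb), fun a b ha hb => h3 a b ha (Or.inr hb)⟩
      · rw [if_neg h2, h.absent x hx.2 y hy.2 hxy]
        have e1 : ∀ b, nextPart π u v b = x ↔ π b = x := fun b => nextPart_eq h1 hx.1
        have e2 : ∀ b, nextPart π u v b = y ↔ π b = y := fun b => nextPart_eq h2 hy.1
        simp only [e1, e2]

/-- positions of the parts -/
structure Pos (G : SimpleGraph V) (k : ℕ) (π : V → V) (f : V → ℕ) : Prop where
  inj : ∀ a b, f a = f b ↔ π a = π b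
  near : ∀ a b, π a ≠ π b → (∃ a' b', π a' = π a ∧ π b' = π b ∧ G.Adj a' b') →
    (∃ a' b', π a' = π a ∧ π b' = π b ∧ ¬ G.Adj a' b') → f a ≤ f b + k

lemma bandwidth_spec {W : Type} [Finite W] (H : SimpleGraph W) {k : ℕ} (h : bandwidth H ≤ k) :
    ∃ σ : W ≃ Fin (Nat.card W), ∀ x y, H.Adj x y →
      |((σ x : ℕ) : ℤ) - ((σ y : ℕ) : ℤ)| ≤ k := by
  have hne : {k : ℕ | ∃ σ : W ≃ Fin (Nat.card W), ∀ x y, H.Adj x y →
      |((σ x : ℕ) : ℤ) - ((σ y : ℕ) : ℤ)| ≤ k}.Nonempty := by
    refine ⟨Nat.card W, Finite.equivFin W, fun x y _ => ?_⟩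
    have := (Finite.equivFin W x).2
    have := (Finite.equivFin W y).2
    rw [abs_le]
    omega
  obtain ⟨σ, hσ⟩ := Nat.sInf_mem hne
  exact ⟨σ, fun x y hxy => (hσ x y hxy).trans (Int.ofNat_le.2 h)⟩

lemma exists_pos {G : SimpleGraph V} {T : Trigraph V} {π : V → V} (h : Good G T π)
    {k : ℕ} (hb : bandwidth (redGraph T) ≤ k) : ∃ f : V → ℕ, Pos G k π f := by
  obtain ⟨σ, hσ⟩ := bandwidth_spec _ hb
  refine ⟨fun a => (σ ⟨π a, h.mem a⟩ : ℕ), ?_, ?_⟩
  · intro a b
    constructor
    · intro hab
      have := σ.injective (Fin.ext hab)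
      simpa using this
    · intro hab
      simp only [hab]
  · intro a b hab h1 h2
    have h3 : (redGraph T).Adj ⟨π a, h.mem a⟩ ⟨π b, h.mem b⟩ := by
      rw [redGraph, SimpleGraph.fromRel_adj]
      refine ⟨fun h => hab (by simpa using h), Or.inl ?_⟩
      change T.col (π a) (π b) = Col.red
      cases hc : T.col (π a) (π b) with
      | red => rfl
      | absent =>
        exfalso
        obtain ⟨a', b', ha', hb', hadj⟩ := h1
        exact (h.absent _ (h.mem a) _ (h.mem b) hab).1 hc a' b' ha' hb' hadj
      | black =>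
        exfalso
        obtain ⟨a', b', ha', hb', hadj⟩ := h2
        exact hadj ((h.black _ (h.mem a) _ (h.mem b) hab).1 hc a' b' ha' hb')
    have := (abs_le.1 (hσ _ _ h3)).2
    change (σ ⟨π a, h.mem a⟩ : ℕ) ≤ (σ ⟨π b, h.mem b⟩ : ℕ) + k
    omega

/-- A partition sequence with positions. -/
structure PSeq [Fintype V] (G : SimpleGraph V) (k : ℕ) (π : ℕ → V → V) (f : ℕ → V → ℕ) : Prop where
  zero : π 0 = id
  step : ∀ i, i + 1 < Fintype.card V → ∃ u v, u ≠ v ∧ π i u = u ∧ π i v = v ∧
    π (i + 1) = nextPart (π i) u v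
  pos : ∀ i, i < Fintype.card V → Pos G k (π i) (f i)
  last : ∀ a b, π (Fintype.card V - 1) a = π (Fintype.card V - 1) b

/-- some reduction sequence exists -/
lemma exists_seq [Fintype V] (G : SimpleGraph V) : ∃ T, IsReductionSequence G T := by
  let step : Trigraph V → Trigraph V := fun T =>
    if h : ∃ p : V × V, p.1 ∈ T.verts ∧ p.2 ∈ T.verts ∧ p.1 ≠ p.2 then
      contract T h.choose.1 h.choose.2 else T
  let T : ℕ → Trigraph V := fun i => step^[i] (ofGraph G)
  have hcard : ∀ i, i < Fintype.card V → (T i).verts.card = Fintype.card V - i := by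
    intro i
    induction i with
    | zero => intro _; simp [T, ofGraph]
    | succ i ih =>
      intro hi
      have h1 := ih (by omega)
      have h2 : T (i + 1) = step (T i) := by
        simp only [T, Function.iterate_succ_apply']
      have h3 : 1 < (T i).verts.card := by omega
      have h4 : ∃ p : V × V, p.1 ∈ (T i).verts ∧ p.2 ∈ (T i).verts ∧ p.1 ≠ p.2 := by
        obtain ⟨a, ha, b, hb, hab⟩ := Finset.one_lt_card.1 h3
        exact ⟨(a, b), ha, hb, hab⟩
      rw [h2]
      simp only [step, dif_pos h4, contract]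
      rw [Finset.card_erase_of_mem h4.choose_spec.2.1, h1]
      omega
  refine ⟨T, rfl, fun i hi => ?_⟩
  have h1 := hcard i (by omega)
  have h3 : 1 < (T i).verts.card := by omega
  have h4 : ∃ p : V × V, p.1 ∈ (T i).verts ∧ p.2 ∈ (T i).verts ∧ p.1 ≠ p.2 := by
    obtain ⟨a, ha, b, hb, hab⟩ := Finset.one_lt_card.1 h3
    exact ⟨(a, b), ha, hb, hab⟩
  refine ⟨h4.choose.1, h4.choose_spec.1, h4.choose.2, h4.choose_spec.2.1, h4.choose_spec.2.2, ?_⟩
  have h2 : T (i + 1) = step (T i) := by
    simp only [T, Function.iterate_succ_apply']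
  rw [h2]
  simp only [step, dif_pos h4]

lemma reducedBandwidth_spec [Fintype V] (G : SimpleGraph V) {k : ℕ} (h : reducedBandwidth G ≤ k) :
    ∃ T : ℕ → Trigraph V, IsReductionSequence G T ∧
      ∀ i, i < Fintype.card V → bandwidth (redGraph (T i)) ≤ k := by
  have hne : {k | ∃ T : ℕ → Trigraph V, IsReductionSequence G T ∧
      ∀ i, i < Fintype.card V → bandwidth (redGraph (T i)) ≤ k}.Nonempty := by
    obtain ⟨T, hT⟩ := exists_seq G
    refine ⟨(Finset.range (Fintype.card V)).sup (fun i => bandwidth (redGraph (T i))), T, hT, ?_⟩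
    intro i hi
    exact Finset.le_sup (f := fun i => bandwidth (redGraph (T i))) (Finset.mem_range.2 hi)
  obtain ⟨T, hT, h2⟩ := Nat.sInf_mem hne
  exact ⟨T, hT, fun i hi => (h2 i hi).trans h⟩

/-- The partition sequence of a reduction sequence. -/
theorem exists_pseq [Fintype V] (G : SimpleGraph V) {k : ℕ} (h : reducedBandwidth G ≤ k) :
    ∃ (π : ℕ → V → V) (f : ℕ → V → ℕ), PSeq G k π f := by
  rcases isEmpty_or_nonempty V with hV | hV
  · refine ⟨fun _ => id, fun _ _ => 0, rfl, ?_, ?_, fun a => (hV.false a).elim⟩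
    · intro i hi
      rw [Fintype.card_eq_zero] at hi
      omega
    · intro i hi
      rw [Fintype.card_eq_zero] at hi
      omega
  obtain ⟨T, ⟨hT0, hT⟩, hbw⟩ := reducedBandwidth_spec G h
  choose! u hu v hv huv hstep using hT
  let π : ℕ → V → V := fun i => Nat.rec id (fun i p => nextPart p (u i) (v i)) i
  have hπ : ∀ i, π (i + 1) = nextPart (π i) (u i) (v i) := fun i => rfl
  have hgood : ∀ i, i < Fintype.card V → Good G (T i) (π i) := by
    intro i
    induction i with
    | zero => intro _; rw [hT0]; exact good_zero G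
    | succ i ih =>
      intro hi
      rw [hstep i hi, hπ]
      exact good_step (ih (by omega)) (hu i hi) (hv i hi) (huv i hi)
  have hcard : ∀ i, i < Fintype.card V → (T i).verts.card = Fintype.card V - i := by
    intro i
    induction i with
    | zero => intro _; rw [hT0]; simp [ofGraph]
    | succ i ih =>
      intro hi
      have h1 := ih (by omega)
      rw [hstep i hi]
      simp only [contract]
      rw [Finset.card_erase_of_mem (hv i hi), h1]
      omega
  have hpos : ∀ i, ∃ f : V → ℕ, i < Fintype.card V → Pos G k (π i) f := by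
    intro i
    by_cases hi : i < Fintype.card V
    · obtain ⟨f, hf⟩ := exists_pos (hgood i hi) (hbw i hi)
      exact ⟨f, fun _ => hf⟩
    · exact ⟨fun _ => 0, fun h => absurd h hi⟩
  choose f hf using hpos
  refine ⟨π, f, rfl, ?_, hf, ?_⟩
  · intro i hi
    have hg := hgood i (by omega)
    exact ⟨u i, v i, huv i hi, hg.rep _ (hu i hi), hg.rep _ (hv i hi), hπ i⟩
  · intro a b
    have hn : 0 < Fintype.card V := Fintype.card_pos_iff.2 ⟨a⟩
    have hg := hgood (Fintype.card V - 1) (by omega)
    have h1 := hcard (Fintype.card V - 1) (by omega)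
    have h2 : (T (Fintype.card V - 1)).verts.card ≤ 1 := by omega
    exact Finset.card_le_one.1 h2 _ (hg.mem a) _ (hg.mem b)

end Q109.RB
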